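import Pool.Agent.H96.AL.Targets1

/-!
al_modules, row CO (MP_c9ef16_gt): contraction towards a point.
-/

open Topology Set Filter Real

namespace Pool.Agent.H17.AL

open Pool.Agent.H96.AL

theorem co_core (hEL : T_EL) (D a b c c' lam : ℝ) (_hD : 0 ≤ D) (ha : 0 < a) (hb : 0 < b)
    (hlam : 0 < lam) (_hlam1 : lam ≤ 1) (haD : a ≤ D) (hbD : b ≤ D) (hcD : c ≤ D)
    (hc'D : c' ≤ D) (hc' : 0 ≤ c') (hc0 : |a - b| ≤ c)
    (hcc : cc (lam * a) (lam * b) c' ≤ cc a b c) :
    lam * c ≤ cosh D ^ 2 * c' := by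
  have hc : 0 ≤ c := (abs_nonneg _).trans hc0
  have hCh : 1 ≤ cosh D := one_le_cosh D
  have hsa : 0 < sinh a := sinh_pos_iff.mpr ha
  have hsb : 0 < sinh b := sinh_pos_iff.mpr hb
  have hla : 0 < lam * a := mul_pos hlam ha
  have hlb : 0 < lam * b := mul_pos hlam hb
  have hsla : 0 < sinh (lam * a) := sinh_pos_iff.mpr hla
  have hslb : 0 < sinh (lam * b) := sinh_pos_iff.mpr hlb
  -- rewrite the comparison
  have e1 : cosh a * cosh b = cosh (a - b) + sinh a * sinh b := by rw [cosh_sub]; ring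
  have e2 : cosh (lam * a) * cosh (lam * b)
      = cosh (lam * (a - b)) + sinh (lam * a) * sinh (lam * b) := by
    rw [mul_sub, cosh_sub]; ring
  have hcc2 : (cosh c - cosh (a - b)) / (sinh a * sinh b)
      ≤ (cosh c' - cosh (lam * (a - b))) / (sinh (lam * a) * sinh (lam * b)) := by
    unfold cc at hcc
    rw [e1, e2] at hcc
    have h1 : (cosh (lam * (a - b)) + sinh (lam * a) * sinh (lam * b) - cosh c')
        / (sinh (lam * a) * sinh (lam * b))
        = 1 - (cosh c' - cosh (lam * (a - b))) / (sinh (lam * a) * sinh (lam * b)) := by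
      field_simp
      ring
    have h2 : (cosh (a - b) + sinh a * sinh b - cosh c) / (sinh a * sinh b)
        = 1 - (cosh c - cosh (a - b)) / (sinh a * sinh b) := by
      field_simp
      ring
    rw [h1, h2] at hcc
    linarith
  have hpos : 0 ≤ cosh c - cosh (a - b) := by
    have : cosh (a - b) ≤ cosh c := by
      rw [cosh_le_cosh, abs_of_nonneg hc]
      exact hc0
    linarith
  have hk : lam ^ 2 / cosh D ^ 2 * (sinh a * sinh b) ≤ sinh (lam * a) * sinh (lam * b) := by
    have h1 : lam * a ≤ sinh (lam * a) := self_le_sinh_iff.mpr hla.le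
    have h2 : lam * b ≤ sinh (lam * b) := self_le_sinh_iff.mpr hlb.le
    have h3 := (hEL D a ha.le haD).2.1
    have h4 := (hEL D b hb.le hbD).2.1
    have h5 : sinh a * sinh b ≤ (a * cosh D) * (b * cosh D) :=
      mul_le_mul h3 h4 hsb.le (by positivity)
    have h6 : (lam * a) * (lam * b) ≤ sinh (lam * a) * sinh (lam * b) :=
      mul_le_mul h1 h2 hlb.le hsla.le
    have h7 : lam ^ 2 / cosh D ^ 2 * (sinh a * sinh b)
        ≤ lam ^ 2 / cosh D ^ 2 * ((a * cosh D) * (b * cosh D)) :=
      mul_le_mul_of_nonneg_left h5 (by positivity)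
    have h8 : lam ^ 2 / cosh D ^ 2 * ((a * cosh D) * (b * cosh D)) = (lam * a) * (lam * b) := by
      field_simp
    linarith
  have hstep : lam ^ 2 / cosh D ^ 2 * (cosh c - cosh (a - b)) ≤ cosh c' - cosh (lam * (a - b)) := by
    have hq : 0 ≤ (cosh c - cosh (a - b)) / (sinh a * sinh b) := by positivity
    have h1 := mul_le_mul_of_nonneg_right hk hq
    have h2 : lam ^ 2 / cosh D ^ 2 * (sinh a * sinh b) * ((cosh c - cosh (a - b)) / (sinh a * sinh b))
        = lam ^ 2 / cosh D ^ 2 * (cosh c - cosh (a - b)) := by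
      field_simp
    have h3 : sinh (lam * a) * sinh (lam * b) * ((cosh c - cosh (a - b)) / (sinh a * sinh b))
        ≤ sinh (lam * a) * sinh (lam * b) *
          ((cosh c' - cosh (lam * (a - b))) / (sinh (lam * a) * sinh (lam * b))) :=
      mul_le_mul_of_nonneg_left hcc2 (by positivity)
    have h4 : sinh (lam * a) * sinh (lam * b) *
          ((cosh c' - cosh (lam * (a - b))) / (sinh (lam * a) * sinh (lam * b)))
          = cosh c' - cosh (lam * (a - b)) := by
      field_simp
    rw [h2] at h1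
    rw [h4] at h3
    linarith
  -- weaker factor
  set k := lam ^ 2 / cosh D ^ 3 with hkdef
  have hk0 : 0 < k := by positivity
  have hkle : k ≤ lam ^ 2 / cosh D ^ 2 := by
    rw [hkdef]
    apply div_le_div_of_nonneg_left (by positivity) (by positivity)
    calc cosh D ^ 2 = cosh D ^ 2 * 1 := by ring
      _ ≤ cosh D ^ 2 * cosh D := mul_le_mul_of_nonneg_left hCh (by positivity)
      _ = cosh D ^ 3 := by ring
  have hstep2 : k * (cosh c - cosh (a - b)) ≤ cosh c' - cosh (lam * (a - b)) :=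
    (mul_le_mul_of_nonneg_right hkle hpos).trans hstep
  have habD : |a - b| ≤ D := hc0.trans hcD
  have hEab := hEL D |a - b| (abs_nonneg _) habD
  have hab1 : cosh (a - b) - 1 ≤ (a - b) ^ 2 / 2 * cosh D := by
    have := hEab.2.2.2.1
    rwa [cosh_abs, sq_abs] at this
  have hlab : lam ^ 2 * (a - b) ^ 2 / 2 ≤ cosh (lam * (a - b)) - 1 := by
    have h1 : |lam * (a - b)| ≤ |lam * (a - b)| := le_rfl
    have := (hEL |lam * (a - b)| |lam * (a - b)| (abs_nonneg _) le_rfl).2.2.1
    rw [cosh_abs, sq_abs] at this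
    have e : (lam * (a - b)) ^ 2 = lam ^ 2 * (a - b) ^ 2 := by ring
    rw [e] at this
    exact this
  have hkab : k * (cosh (a - b) - 1) ≤ lam ^ 2 * (a - b) ^ 2 / 2 := by
    have h1 : k * (cosh (a - b) - 1) ≤ k * ((a - b) ^ 2 / 2 * cosh D) :=
      mul_le_mul_of_nonneg_left hab1 hk0.le
    have h2 : k * cosh D ≤ lam ^ 2 := by
      have e : k * cosh D = lam ^ 2 / cosh D ^ 2 := by
        rw [hkdef]; field_simp
      rw [e]
      apply div_le_self (by positivity)
      exact one_le_pow₀ hCh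
    have h3 : k * ((a - b) ^ 2 / 2 * cosh D) = k * cosh D * ((a - b) ^ 2 / 2) := by ring
    have h4 : k * cosh D * ((a - b) ^ 2 / 2) ≤ lam ^ 2 * ((a - b) ^ 2 / 2) :=
      mul_le_mul_of_nonneg_right h2 (by positivity)
    linarith
  have hEc := hEL D c hc hcD
  have hEc' := hEL D c' hc' hc'D
  have hkc : k * (c ^ 2 / 2) ≤ k * (cosh c - 1) := mul_le_mul_of_nonneg_left hEc.2.2.1 hk0.le
  have hfin : k * (c ^ 2 / 2) ≤ c' ^ 2 / 2 * cosh D := by
    have e : k * (cosh c - cosh (a - b)) = k * (cosh c - 1) - k * (cosh (a - b) - 1) := by ring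
    linarith [hEc'.2.2.2.1]
  have hsq : (lam * c) ^ 2 ≤ (cosh D ^ 2 * c') ^ 2 := by
    have h1 : k * (c ^ 2 / 2) * (2 * cosh D ^ 3) = (lam * c) ^ 2 := by
      rw [hkdef]; field_simp
    have h2 : c' ^ 2 / 2 * cosh D * (2 * cosh D ^ 3) = (cosh D ^ 2 * c') ^ 2 := by ring
    rw [← h1, ← h2]
    exact mul_le_mul_of_nonneg_right hfin (by positivity)
  exact le_of_sq_le_sq hsq (by positivity)

/-- CO: contraction towards a point. -/
theorem co (hEL : T_EL) (hMO : T_MO) : T_CO := by
  intro X _ D hSp z x y x' y' lam hlam hlam1 hx hy hdx hdy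
  have hD : 0 ≤ D := zero_le_one.trans hSp.one_le
  have hCh : 1 ≤ cosh D := one_le_cosh D
  have hCh2 : 1 ≤ cosh D ^ 2 := one_le_pow₀ hCh
  by_cases hzx : z = x
  · subst hzx
    have h0 : dist z x' = 0 := by rw [hdx]; simp
    have h1 : z = x' := dist_eq_zero.mp h0
    subst h1
    rw [hdy]
    have : 0 ≤ lam * dist z y := by positivity
    nlinarith
  by_cases hzy : z = y
  · subst hzy
    have h0 : dist z y' = 0 := by rw [hdy]; simp
    have h1 : z = y' := dist_eq_zero.mp h0
    subst h1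
    rw [dist_comm x z, dist_comm x' z, hdx]
    have : 0 ≤ lam * dist z x := by positivity
    nlinarith
  have ha : 0 < dist z x := dist_pos.mpr hzx
  have hb : 0 < dist z y := dist_pos.mpr hzy
  have hzx' : z ≠ x' := by
    intro h
    have : dist z x' = 0 := by rw [← h]; simp
    rw [hdx] at this
    have := mul_pos hlam ha
    linarith
  have hzy' : z ≠ y' := by
    intro h
    have : dist z y' = 0 := by rw [← h]; simp
    rw [hdy] at this
    have := mul_pos hlam hb
    linarith
  have hM := hMO X hSp.cb z x y x' y' hx hy hzx' hzy'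
  rw [hdx, hdy] at hM
  have htri : |dist z x - dist z y| ≤ dist x y := by
    rw [dist_comm z x, dist_comm z y]
    exact abs_dist_sub_le x y z
  exact co_core hEL D (dist z x) (dist z y) (dist x y) (dist x' y') lam hD ha hb hlam hlam1
    (hSp.diam _ _) (hSp.diam _ _) (hSp.diam _ _) (hSp.diam _ _) dist_nonneg htri hM

end Pool.Agent.H17.AL
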