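import Pool.Agent.H96.AL.Targets1

/-!
al_modules, row DA (MP_c9ef16_gt): sums and multiples of directional derivatives.
-/

open Topology Set Filter Real

namespace Pool.Agent.H17.AL

open Pool.Agent.H96.AL

/-- DA: sums and multiples. -/
theorem da : T_DA := by
  intro X _ f g z y a b c hc hf hg
  constructor
  · intro η hη ε hε
    have h1 := hf η hη (ε / 2) (by positivity)
    have h2 := hg η hη (ε / 2) (by positivity)
    filter_upwards [h1, h2] with s hs1 hs2
    have e : s * (a + b - ε) = s * (a - ε / 2) + s * (b - ε / 2) := by ring
    linarith
  · intro η hη ε hε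
    rcases hc.eq_or_lt with h0 | h0
    · subst h0
      filter_upwards [self_mem_nhdsWithin] with s hs
      have hs' : 0 < s := hs
      have : 0 < s * ε := mul_pos hs' hε
      have e : 0 * f z + s * (0 * a - ε) = -(s * ε) := by ring
      have e2 : 0 * f (η (s * dist z y)) = 0 := by ring
      show 0 * f z + s * (0 * a - ε) ≤ 0 * f (η (s * dist z y))
      rw [e, e2]
      linarith
    · have h1 := hf η hη (ε / c) (by positivity)
      filter_upwards [h1] with s hs
      have h2 := mul_le_mul_of_nonneg_left hs h0.le
      have e : c * (f z + s * (a - ε / c)) = c * f z + s * (c * a - ε) := by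
        field_simp
      rw [e] at h2
      exact h2

end Pool.Agent.H17.AL
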