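import Pool.Agent.H96.AL.Targets1

/-!
al_modules, row RI (MP_c9ef16_gt): real induction, local increments bound global increments.
-/

open Topology Set Filter Real MeasureTheory

namespace Pool.Agent.H17.AL

open Pool.Agent.H96.AL

/-- RI: local increments bound global increments. -/
theorem ri : T_RI := by
  intro φ ψ a b hab hφ hψ h
  have hint : ∀ x ∈ Icc a b, IntervalIntegrable ψ volume a x := by
    intro x hx
    apply ContinuousOn.intervalIntegrable
    rw [uIcc_of_le hx.1]
    exact hψ.mono (Icc_subset_Icc le_rfl hx.2)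
  have hB : ContinuousOn (fun t => φ a + ∫ r in a..t, ψ r) (Icc a b) := by
    apply continuousOn_const.add
    have := intervalIntegral.continuousOn_primitive_interval (μ := volume) (f := ψ) (a := a)
      (b := b) (by
        rw [uIcc_of_le hab]
        exact hψ.integrableOn_Icc)
    rwa [uIcc_of_le hab] at this
  have hB' : ∀ x ∈ Ico a b,
      HasDerivWithinAt (fun t => φ a + ∫ r in a..t, ψ r) (ψ x) (Ici x) x := by
    intro x hx
    apply HasDerivWithinAt.const_add
    have hle : 𝓝[>] x ≤ 𝓝[Icc a b] x := by
      rw [nhdsWithin_le_iff]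
      filter_upwards [Ioo_mem_nhdsGT hx.2] with t ht
      exact ⟨hx.1.trans ht.1.le, ht.2.le⟩
    apply intervalIntegral.integral_hasDerivWithinAt_right (hint x ⟨hx.1, hx.2.le⟩)
      (t := Ioi x)
    · exact (hψ.stronglyMeasurableAtFilter_nhdsWithin measurableSet_Icc x).filter_mono hle
    · exact (hψ x ⟨hx.1, hx.2.le⟩).mono_left hle
  have key := image_le_of_liminf_slope_right_le_deriv_boundary hφ
    (B := fun t => φ a + ∫ r in a..t, ψ r) (B' := ψ) (by simp) hB hB' (by
      intro x hx r hr
      apply Eventually.frequently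
      obtain ⟨r', hr', hh⟩ := h x hx ((r - ψ x) / 2) (by linarith)
      filter_upwards [Ioo_mem_nhdsGT hx.2, Ioo_mem_nhdsGT hr'] with t ht1 ht2
      have h1 := hh x t le_rfl ht1.1.le ht2.2.le ht1.2.le
      rw [slope_def_field, div_lt_iff₀ (by linarith [ht1.1])]
      have h2 : 0 < t - x := by linarith [ht1.1]
      nlinarith)
  have := key (right_mem_Icc.mpr hab)
  linarith

end Pool.Agent.H17.AL
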